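import Pool.Agent.Lib.P74a576.Pebble

set_option autoImplicit false
set_option linter.unusedSimpArgs false

namespace Pool.Agent.Lib.P74a576

/-- Elements: an injection `Fin n ↪ Fin m` (the sources the element is joined to) and a copy
number. -/
abbrev Y (m n K : ℕ) : Type := (Fin n ↪ Fin m) × Fin K

/-- Vertices: sources, elements, and interior vertices of the paths joining them. There are `q`
interior vertices on each path. -/
abbrev Vt (m n K q : ℕ) : Type := Fin m ⊕ (Y m n K ⊕ (Y m n K × Fin n × Fin q))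

section graph

variable {m n K q : ℕ}

/-- a source -/
abbrev src (i : Fin m) : Vt m n K q := Sum.inl i
/-- an element -/
abbrev tgt (y : Y m n K) : Vt m n K q := Sum.inr (Sum.inl y)
/-- interior path vertex -/
abbrev mid (y : Y m n K) (k : Fin n) (s : Fin q) : Vt m n K q := Sum.inr (Sum.inr (y, k, s))

/-- The `s`-th vertex of the `k`-th path of the element `y`; position `0` is the source `y.1 k`,
position `q + 1` is the element. -/
def P (y : Y m n K) (k : Fin n) : ℕ → Vt m n K q
  | 0 => src (y.1 k)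
  | (s + 1) => if h : s < q then mid y k ⟨s, h⟩ else tgt y

/-- The graph. -/
def Gr (m n K q : ℕ) : SimpleGraph (Vt m n K q) :=
  SimpleGraph.fromRel (fun u v => ∃ (y : Y m n K) (k : Fin n) (s : ℕ), s ≤ q ∧
    u = P y k s ∧ v = P y k (s + 1))

lemma P_zero (y : Y m n K) (k : Fin n) : (P y k 0 : Vt m n K q) = src (y.1 k) := rfl

lemma P_mid (y : Y m n K) (k : Fin n) (s : ℕ) (h : s < q) :
    (P y k (s + 1) : Vt m n K q) = mid y k ⟨s, h⟩ := by
  simp [P, h]

lemma P_end (y : Y m n K) (k : Fin n) : (P y k (q + 1) : Vt m n K q) = tgt y := by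
  simp [P]

lemma P_ne (y : Y m n K) (k : Fin n) (s : ℕ) (hs : s ≤ q) :
    (P y k s : Vt m n K q) ≠ P y k (s + 1) := by
  rcases s with _ | s
  · rw [P_zero]
    simp only [P]
    split_ifs <;> simp
  · rw [P_mid y k s (by omega)]
    simp only [P]
    split_ifs with h
    · intro h2
      simp only [Sum.inr.injEq, Prod.mk.injEq, Fin.mk.injEq, true_and] at h2
      omega
    · simp

lemma P_adj (y : Y m n K) (k : Fin n) (s : ℕ) (hs : s ≤ q) :
    (Gr m n K q).Adj (P y k s) (P y k (s + 1)) := by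
  unfold Gr
  rw [SimpleGraph.fromRel_adj]
  exact ⟨P_ne y k s hs, Or.inl ⟨y, k, s, hs, rfl, rfl⟩⟩

lemma adj_cases {u v : Vt m n K q} (h : (Gr m n K q).Adj u v) :
    ∃ (y : Y m n K) (k : Fin n) (s : ℕ), s ≤ q ∧
      ((u = P y k s ∧ v = P y k (s + 1)) ∨ (v = P y k s ∧ u = P y k (s + 1))) := by
  unfold Gr at h
  rw [SimpleGraph.fromRel_adj] at h
  rcases h with ⟨_, ⟨y, k, s, hs, h1, h2⟩ | ⟨y, k, s, hs, h1, h2⟩⟩
  · exact ⟨y, k, s, hs, Or.inl ⟨h1, h2⟩⟩
  · exact ⟨y, k, s, hs, Or.inr ⟨h1, h2⟩⟩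

lemma P_ne_tgt (y y0 : Y m n K) (k : Fin n) (s : ℕ) (hs : s ≤ q) :
    (P y k s : Vt m n K q) ≠ tgt y0 := by
  rcases s with _ | s
  · rw [P_zero]; simp
  · rw [P_mid y k s (by omega)]; simp

/-- walks along a path -/
lemma path_walk (y : Y m n K) (k : Fin n) (s : ℕ) : ∀ d : ℕ, s + d ≤ q + 1 →
    ∃ w : (Gr m n K q).Walk (P y k s) (P y k (s + d)), w.length = d := by
  intro d
  induction d with
  | zero => intro _; exact ⟨SimpleGraph.Walk.nil, rfl⟩
  | succ d ih =>
    intro h
    obtain ⟨w, hw⟩ := ih (by omega)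
    refine ⟨w.concat (P_adj y k (s + d) (by omega)), ?_⟩
    rw [SimpleGraph.Walk.length_concat, hw]

/-- walk from a source of `y` to any vertex of one of the paths of `y`, through the element. -/
lemma path_walk_through (y : Y m n K) (k k' : Fin n) (s d : ℕ) (h : s + d = q + 1) :
    ∃ w : (Gr m n K q).Walk (src (y.1 k')) (P y k s), w.length = (q + 1) + d := by
  obtain ⟨w1, h1⟩ := path_walk (q := q) y k' 0 (q + 1) (by omega)
  obtain ⟨w2, h2⟩ := path_walk (q := q) y k s d (by omega)
  have e1 : (P y k' (0 + (q + 1)) : Vt m n K q) = tgt y := by rw [zero_add]; exact P_end y k'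
  have e2 : (P y k (s + d) : Vt m n K q) = tgt y := by rw [h]; exact P_end y k
  let w1' : (Gr m n K q).Walk (src (y.1 k')) (tgt y) := w1.copy (P_zero y k') e1
  let w2' : (Gr m n K q).Walk (P y k s) (tgt y) := w2.copy rfl e2
  refine ⟨w1'.append w2'.reverse, ?_⟩
  rw [SimpleGraph.Walk.length_append, SimpleGraph.Walk.length_reverse,
    SimpleGraph.Walk.length_copy, SimpleGraph.Walk.length_copy, h1, h2]

lemma reach_src (y : Y m n K) (k : Fin n) (s : ℕ) (hs : s ≤ q + 1) :
    (Gr m n K q).Reachable (src (y.1 k)) (P y k s) := by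
  obtain ⟨w, _⟩ := path_walk (q := q) y k 0 s (by omega)
  exact ⟨w.copy (P_zero y k) (by rw [zero_add])⟩

lemma connected (hn : 2 ≤ n) (hm : n ≤ m) (hK : 0 < K) : (Gr m n K q).Connected := by
  classical
  rw [SimpleGraph.connected_iff_exists_forall_reachable]
  let x0 : Fin n ↪ Fin m := (Fin.castLEEmb hm)
  let z0 : Fin K := ⟨0, hK⟩
  let i0 : Fin m := ⟨0, by omega⟩
  let i1 : Fin m := ⟨1, by omega⟩
  have hsrc : ∀ i : Fin m, (Gr m n K q).Reachable (src i0) (src i) := by
    intro i
    by_cases hi : i = i0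
    · subst hi; exact SimpleGraph.Reachable.refl _
    · let x : Fin n ↪ Fin m := x0.trans (Equiv.swap i1 i).toEmbedding
      let y : Y m n K := (x, z0)
      have ha : x ⟨0, by omega⟩ = i0 := by
        change Equiv.swap i1 i (x0 ⟨0, by omega⟩) = i0
        have h1 : x0 ⟨0, by omega⟩ = i0 := by
          apply Fin.ext; rfl
        rw [h1]
        apply Equiv.swap_apply_of_ne_of_ne
        · intro h; exact absurd (congrArg Fin.val h) (by simp [i0, i1])
        · exact fun h => hi h.symm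
      have hb : x ⟨1, by omega⟩ = i := by
        change Equiv.swap i1 i (x0 ⟨1, by omega⟩) = i
        have h1 : x0 ⟨1, by omega⟩ = i1 := by
          apply Fin.ext; rfl
        rw [h1]
        exact Equiv.swap_apply_left _ _
      have r1 := reach_src (q := q) y ⟨0, by omega⟩ (q + 1) le_rfl
      have r2 := reach_src (q := q) y ⟨1, by omega⟩ (q + 1) le_rfl
      rw [P_end] at r1 r2
      have ha' : y.1 ⟨0, by omega⟩ = i0 := ha
      have hb' : y.1 ⟨1, by omega⟩ = i := hb
      rw [ha'] at r1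
      rw [hb'] at r2
      exact r1.trans r2.symm
  refine ⟨src i0, ?_⟩
  intro w
  rcases w with i | y | ⟨y, k, s⟩
  · exact hsrc i
  · have h := reach_src (q := q) y ⟨0, by omega⟩ (q + 1) le_rfl
    rw [P_end] at h
    exact (hsrc _).trans h
  · have h := reach_src (q := q) y k (s.val + 1) (by omega)
    rw [P_mid y k s.val s.2] at h
    exact (hsrc _).trans h

/-- potential attached to the element `y0` and its `k0`-th path -/
def phi (y0 : Y m n K) (k0 : Fin n) : Vt m n K q → ℕ
  | Sum.inl i => if i = y0.1 k0 then 2 ^ (q + 1) else 1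
  | Sum.inr (Sum.inl _) => 1
  | Sum.inr (Sum.inr (y, k, s)) =>
      if y.1 k = y0.1 k0 then
        (if y = y0 then 2 ^ (q + 1 + (s.val + 1)) else 2 ^ (q + 1 - (s.val + 1))) else 1

/-- basic potential attached to the source `i` -/
def phi0 (i : Fin m) : Vt m n K q → ℕ
  | Sum.inl i' => if i' = i then 2 ^ (q + 1) else 1
  | Sum.inr (Sum.inl _) => 1
  | Sum.inr (Sum.inr (y, k, s)) => if y.1 k = i then 2 ^ (q + 1 - (s.val + 1)) else 1

lemma phi_P_ne (y0 : Y m n K) (k0 : Fin n) (y : Y m n K) (hy : y ≠ y0) (k : Fin n) (s : ℕ)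
    (hs : s ≤ q + 1) :
    phi y0 k0 (P y k s : Vt m n K q) = if y.1 k = y0.1 k0 then 2 ^ (q + 1 - s) else 1 := by
  rcases s with _ | s
  · rw [P_zero]; simp [phi]
  · by_cases h : s < q
    · rw [P_mid y k s h]; simp [phi, hy]
    · have : s = q := by omega
      subst this
      rw [P_end]; simp [phi]

lemma phi_P_eq (y0 : Y m n K) (k0 : Fin n) (k : Fin n) (s : ℕ) (hs : s ≤ q) :
    phi y0 k0 (P y0 k s : Vt m n K q) = if y0.1 k = y0.1 k0 then 2 ^ (q + 1 + s) else 1 := by
  rcases s with _ | s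
  · rw [P_zero]; simp [phi]
  · rw [P_mid y0 k s (by omega)]; simp [phi]

lemma phi_edge (y0 : Y m n K) (k0 : Fin n) {u v : Vt m n K q} (h : (Gr m n K q).Adj u v)
    (hu : u ≠ tgt y0) (hv : v ≠ tgt y0) : phi y0 k0 v ≤ 2 * phi y0 k0 u := by
  obtain ⟨y, k, s, hs, hc⟩ := adj_cases h
  by_cases hy : y = y0
  · subst hy
    have hsq : s + 1 ≤ q := by
      by_contra hcon
      have : s = q := by omega
      subst this
      rcases hc with ⟨_, h2⟩ | ⟨_, h2⟩
      · exact hv (by rw [h2, P_end])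
      · exact hu (by rw [h2, P_end])
    have e1 := phi_P_eq (q := q) y k0 k s hs
    have e2 := phi_P_eq (q := q) y k0 k (s + 1) hsq
    have e3 : 2 ^ (q + 1 + (s + 1)) = 2 * 2 ^ (q + 1 + s) := by
      rw [← add_assoc, pow_succ]; ring
    have e4 : 0 < 2 ^ (q + 1 + s) := by positivity
    rcases hc with ⟨rfl, rfl⟩ | ⟨rfl, rfl⟩
    · rw [e1, e2]
      split_ifs <;> omega
    · rw [e1, e2]
      split_ifs <;> omega
  · have e1 := phi_P_ne (q := q) y0 k0 y hy k s (by omega)
    have e2 := phi_P_ne (q := q) y0 k0 y hy k (s + 1) (by omega)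
    have e3 : 2 ^ (q + 1 - s) = 2 * 2 ^ (q + 1 - (s + 1)) := by
      have : q + 1 - s = (q + 1 - (s + 1)) + 1 := by omega
      rw [this, pow_succ]; ring
    have e4 : 0 < 2 ^ (q + 1 - (s + 1)) := by positivity
    rcases hc with ⟨rfl, rfl⟩ | ⟨rfl, rfl⟩
    · rw [e1, e2]
      split_ifs <;> omega
    · rw [e1, e2]
      split_ifs <;> omega

lemma adj_tgt {u : Vt m n K q} {y0 : Y m n K} (h : (Gr m n K q).Adj u (tgt y0)) :
    ∃ k : Fin n, u = P y0 k q := by
  obtain ⟨y, k, s, hs, hc⟩ := adj_cases h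
  rcases hc with ⟨h1, h2⟩ | ⟨h1, h2⟩
  · by_cases hsq : s < q
    · rw [P_mid y k s hsq] at h2
      simp at h2
    · have : s = q := by omega
      subst this
      rw [P_end] at h2
      have hy : y0 = y := by simpa using h2
      subst hy
      exact ⟨k, h1⟩
  · exact absurd h1.symm (P_ne_tgt y y0 k s hs)

/-- The invariant of the lower bound. -/
def Inv (y0 : Y m n K) (D : Vt m n K q → ℕ) : Prop :=
  D (tgt y0) = 0 ∧ ∀ k0 : Fin n, ∑ v, D v * phi y0 k0 v < 2 ^ (2 * (q + 1))

lemma inv_move [DecidableEq (Vt m n K q)] (y0 : Y m n K) {A B : Vt m n K q → ℕ}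
    (hA : Inv y0 A) (h : Move (Gr m n K q) A B) : Inv y0 B := by
  obtain ⟨u, v, huv, h2, rfl⟩ := h
  obtain ⟨h0, hlt⟩ := hA
  have hu : u ≠ tgt y0 := by
    rintro rfl
    omega
  by_cases hv : v = tgt y0
  · exfalso
    subst hv
    obtain ⟨k, hk⟩ := adj_tgt huv
    have hlt' := hlt k
    have e1 := phi_P_eq (q := q) y0 k k q le_rfl
    rw [if_pos rfl, ← hk] at e1
    have h3 : A u * phi y0 k u ≤ ∑ v, A v * phi y0 k v :=
      Finset.single_le_sum (f := fun v => A v * phi y0 k v) (fun _ _ => Nat.zero_le _)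
        (Finset.mem_univ u)
    rw [e1] at h3
    have h4 : 2 * 2 ^ (q + 1 + q) ≤ A u * 2 ^ (q + 1 + q) := Nat.mul_le_mul_right _ h2
    have h5 : 2 ^ (2 * (q + 1)) = 2 * 2 ^ (q + 1 + q) := by
      have : 2 * (q + 1) = (q + 1 + q) + 1 := by ring
      rw [this, pow_succ]; ring
    omega
  · refine ⟨?_, ?_⟩
    · rw [Function.update_of_ne (Ne.symm hv), Function.update_of_ne (Ne.symm hu)]
      exact h0
    · intro k0
      have h3 := move_sum u v huv.ne h2 (phi y0 k0)
      have h4 := phi_edge y0 k0 huv hu hv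
      have h5 := hlt k0
      omega

lemma inv_rtg [DecidableEq (Vt m n K q)] (y0 : Y m n K) {A B : Vt m n K q → ℕ}
    (hA : Inv y0 A) (h : Relation.ReflTransGen (Move (Gr m n K q)) A B) : Inv y0 B := by
  induction h with
  | refl => exact hA
  | tail _ hm ih => exact inv_move y0 ih hm

lemma sum_ite_le (a : Fin m) (X : ℕ) : ∑ i : Fin m, (if a = i then X else 1) ≤ X + m := by
  calc ∑ i : Fin m, (if a = i then X else 1)
      ≤ ∑ i : Fin m, ((if a = i then X else 0) + 1) := by
        apply Finset.sum_le_sum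
        intro i _
        split_ifs <;> omega
    _ = X + m := by
        rw [Finset.sum_add_distrib]
        simp

lemma sum_phi0_le (v : Vt m n K q) : ∑ i : Fin m, phi0 i v ≤ 2 ^ (q + 1) + m := by
  rcases v with i' | y | ⟨y, k, s⟩
  · simp only [phi0]
    exact sum_ite_le i' _
  · simp only [phi0]
    simp
  · simp only [phi0]
    refine (sum_ite_le (y.1 k) _).trans ?_
    have : 2 ^ (q + 1 - (s.val + 1)) ≤ 2 ^ (q + 1) := Nat.pow_le_pow_right (by norm_num) (by omega)
    omega

/-- Lower bound: a small configuration misses some element. -/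
lemma lower [DecidableEq (Vt m n K q)] (hm : m = 2 * n) (hq : m ≤ 2 ^ (q + 1)) 
    (E : Vt m n K q → ℕ) (hE : ∑ v, E v ≤ n * 2 ^ q) (hK : n * 2 ^ q < K) :
    ∃ y0 : Y m n K, ∀ E', Relation.ReflTransGen (Move (Gr m n K q)) E E' → E' (tgt y0) = 0 := by
  classical
  -- rich sources
  let R : Finset (Fin m) := Finset.univ.filter (fun i => 2 ^ (2 * (q + 1)) ≤ ∑ v, E v * phi0 i v)
  have hR : R.card ≤ n := by
    have h1 : R.card * 2 ^ (2 * (q + 1)) ≤ ∑ i : Fin m, ∑ v, E v * phi0 i v := by
      calc R.card * 2 ^ (2 * (q + 1)) = ∑ _i ∈ R, 2 ^ (2 * (q + 1)) := by simp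
        _ ≤ ∑ i ∈ R, ∑ v, E v * phi0 i v := by
            apply Finset.sum_le_sum
            intro i hi
            exact (Finset.mem_filter.1 hi).2
        _ ≤ ∑ i : Fin m, ∑ v, E v * phi0 i v :=
            Finset.sum_le_sum_of_subset (Finset.subset_univ R)
    have h2 : ∑ i : Fin m, ∑ v, E v * phi0 i v ≤ n * 2 ^ q * (2 * 2 ^ (q + 1)) := by
      rw [Finset.sum_comm]
      calc ∑ v, ∑ i : Fin m, E v * phi0 i v = ∑ v, E v * ∑ i : Fin m, phi0 i v := by
            apply Finset.sum_congr rfl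
            intro v _
            rw [Finset.mul_sum]
        _ ≤ ∑ v, E v * (2 * 2 ^ (q + 1)) := by
            apply Finset.sum_le_sum
            intro v _
            apply Nat.mul_le_mul_left
            have := sum_phi0_le v
            omega
        _ = (∑ v, E v) * (2 * 2 ^ (q + 1)) := by rw [Finset.sum_mul]
        _ ≤ n * 2 ^ q * (2 * 2 ^ (q + 1)) := Nat.mul_le_mul_right _ hE
    have h3 : n * 2 ^ q * (2 * 2 ^ (q + 1)) = n * 2 ^ (2 * (q + 1)) := by
      have : 2 * (q + 1) = q + 1 + (q + 1) := by ring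
      rw [this, pow_add, pow_succ]; ring
    have h4 : R.card * 2 ^ (2 * (q + 1)) ≤ n * 2 ^ (2 * (q + 1)) := by
      rw [← h3]; exact h1.trans h2
    exact Nat.le_of_mul_le_mul_right h4 (by positivity)
  have hRc : n ≤ (Rᶜ).card := by
    rw [Finset.card_compl, Fintype.card_fin]; omega
  obtain ⟨x, hx⟩ : ∃ x : Fin n ↪ Fin m, ∀ k, x k ∉ R := by
    obtain ⟨T, hT, hTc⟩ := Finset.exists_subset_card_eq hRc
    let e := T.equivFinOfCardEq hTc
    refine ⟨⟨fun k => (e.symm k).1, ?_⟩, ?_⟩
    · intro a b hab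
      exact e.symm.injective (Subtype.ext hab)
    · intro k
      have h1 := (e.symm k).2
      have h2 := hT h1
      exact Finset.mem_compl.1 h2
  -- a clean copy
  obtain ⟨z, hz0, hz1⟩ : ∃ z : Fin K, E (tgt (x, z)) = 0 ∧
      ∀ k s, E (mid (x, z) k s) = 0 := by
    by_contra hcon
    push Not at hcon
    have hv : ∀ z : Fin K, ∃ v : Vt m n K q, 1 ≤ E v ∧
        (v = tgt (x, z) ∨ ∃ k s, v = mid (x, z) k s) := by
      intro z
      by_cases h0 : E (tgt (x, z)) = 0
      · obtain ⟨k, s, h⟩ := hcon z h0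
        exact ⟨mid (x, z) k s, by omega, Or.inr ⟨k, s, rfl⟩⟩
      · exact ⟨tgt (x, z), by omega, Or.inl rfl⟩
    choose f hf1 hf2 using hv
    have hinj : Function.Injective f := by
      intro a b hab
      have ha := hf2 a
      have hb := hf2 b
      rw [← hab] at hb
      rcases ha with ha | ⟨k, s, ha⟩ <;> rcases hb with hb | ⟨k', s', hb⟩
      · rw [ha] at hb
        simpa using hb
      · rw [ha] at hb
        simp at hb
      · rw [ha] at hb
        simp at hb
      · rw [ha] at hb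
        simp only [Sum.inr.injEq, Prod.mk.injEq, true_and] at hb
        exact hb.1
    have h1 : K ≤ ∑ v, E v := by
      calc K = ∑ _z : Fin K, 1 := by simp
        _ ≤ ∑ z : Fin K, E (f z) := Finset.sum_le_sum (fun z _ => hf1 z)
        _ = ∑ v ∈ Finset.univ.image f, E v := by
            rw [Finset.sum_image (fun a _ b _ hab => hinj hab)]
        _ ≤ ∑ v, E v := Finset.sum_le_sum_of_subset (Finset.subset_univ _)
    omega
  refine ⟨(x, z), ?_⟩
  have hinv : Inv (x, z) E := by
    refine ⟨hz0, ?_⟩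
    intro k0
    have hx0 : ∑ v, E v * phi0 (x k0) v < 2 ^ (2 * (q + 1)) := by
      have := hx k0
      simp only [R, Finset.mem_filter, Finset.mem_univ, true_and, not_le] at this
      exact this
    have heq : ∑ v, E v * phi (x, z) k0 v = ∑ v, E v * phi0 (x k0) v := by
      apply Finset.sum_congr rfl
      intro v _
      rcases v with i' | y | ⟨y, k, s⟩
      · rfl
      · rfl
      · by_cases hy : y = (x, z)
        · subst hy
          have : E (Sum.inr (Sum.inr ((x, z), k, s))) = 0 := hz1 k s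
          rw [this]; simp
        · simp only [phi, phi0, if_neg hy]
    rw [heq]; exact hx0
  intro E' hE'
  exact (inv_rtg (x, z) hinv hE').1

end graph

end Pool.Agent.Lib.P74a576
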