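import Pool.Agent.Lib.P74a576.Graph

/-!
# Optimal pebbling numbers

Definitions of the optimal pebbling numbers, their subadditivity, and the family of graphs whose
optimal pebbling number is much larger than the fractional one.
-/

set_option autoImplicit false

namespace Pool.Agent.Lib.P74a576

open Filter Topology

/-- One pebbling step: two pebbles are taken off a vertex `u` and one pebble is put on a neighbour
`v` of `u`. -/
def Step {V : Type} (G : SimpleGraph V) (A B : V → ℕ) : Prop :=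
  ∃ u v : V, G.Adj u v ∧ 2 ≤ A u ∧ B u = A u - 2 ∧ B v = A v + 1 ∧
    ∀ w : V, w ≠ u → w ≠ v → B w = A w

/-- `C` is `k`-fold solvable: for every vertex `r`, some sequence of pebbling steps starting from
`C` ends with at least `k` pebbles on `r`. -/
def Solvable {V : Type} (G : SimpleGraph V) (k : ℕ) (C : V → ℕ) : Prop :=
  ∀ r : V, ∃ D : V → ℕ, Relation.ReflTransGen (Step G) C D ∧ k ≤ D r

/-- The minimum size of a `k`-fold solvable configuration; for `k = 1` this is the optimal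
pebbling number. -/
noncomputable def optPeb {V : Type} [Fintype V] (G : SimpleGraph V) (k : ℕ) : ℕ :=
  sInf {s : ℕ | ∃ C : V → ℕ, Solvable G k C ∧ ∑ v, C v = s}

section

variable {V : Type} [DecidableEq V] {G : SimpleGraph V}

lemma step_iff_move (A B : V → ℕ) : Step G A B ↔ Move G A B := by
  constructor
  · rintro ⟨u, v, h, h2, hu, hv, hw⟩
    refine ⟨u, v, h, h2, ?_⟩
    funext w
    by_cases hwv : w = v
    · subst hwv; simp [hv]
    · by_cases hwu : w = u
      · subst hwu; simp [Function.update_of_ne hwv, hu]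
      · simp [Function.update_of_ne hwv, Function.update_of_ne hwu, hw w hwu hwv]
  · rintro ⟨u, v, h, h2, rfl⟩
    have hne : u ≠ v := h.ne
    refine ⟨u, v, h, h2, ?_, ?_, ?_⟩
    · simp [Function.update_of_ne hne]
    · simp
    · intro w hwu hwv
      simp [Function.update_of_ne hwv, Function.update_of_ne hwu]

lemma step_eq_move : Step G = Move G := by
  funext A B
  exact propext (step_iff_move A B)

end

section

variable {V : Type} [Fintype V] {G : SimpleGraph V}

lemma step_sum {A B : V → ℕ} (h : Step G A B) : ∑ v, B v ≤ ∑ v, A v := by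
  classical
  rw [step_eq_move] at h
  obtain ⟨u, v, huv, h2, rfl⟩ := h
  have := move_sum u v huv.ne h2 (fun _ => 1)
  simp only [mul_one] at this
  omega

lemma rtg_step_sum {A B : V → ℕ} (h : Relation.ReflTransGen (Step G) A B) :
    ∑ v, B v ≤ ∑ v, A v := by
  induction h with
  | refl => exact le_rfl
  | tail _ hm ih => exact (step_sum hm).trans ih

lemma optPeb_mem (G : SimpleGraph V) (k : ℕ) :
    ∃ C : V → ℕ, Solvable G k C ∧ ∑ v, C v = optPeb G k := by
  have : optPeb G k ∈ {s : ℕ | ∃ C : V → ℕ, Solvable G k C ∧ ∑ v, C v = s} :=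
    Nat.sInf_mem ⟨_, fun _ => k, fun r => ⟨fun _ => k, Relation.ReflTransGen.refl, le_rfl⟩, rfl⟩
  exact this

lemma optPeb_le {k : ℕ} {C : V → ℕ} (h : Solvable G k C) : optPeb G k ≤ ∑ v, C v :=
  Nat.sInf_le ⟨C, h, rfl⟩

lemma le_optPeb [Nonempty V] (G : SimpleGraph V) (k : ℕ) : k ≤ optPeb G k := by
  obtain ⟨C, hC, hs⟩ := optPeb_mem G k
  obtain ⟨r⟩ := (inferInstance : Nonempty V)
  obtain ⟨D, h1, h2⟩ := hC r
  calc k ≤ D r := h2
    _ ≤ ∑ v, D v := Finset.single_le_sum (f := D) (fun _ _ => Nat.zero_le _) (Finset.mem_univ r)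
    _ ≤ ∑ v, C v := rtg_step_sum h1
    _ = optPeb G k := hs

lemma optPeb_add (G : SimpleGraph V) (k l : ℕ) : optPeb G (k + l) ≤ optPeb G k + optPeb G l := by
  classical
  obtain ⟨C, hC, hs⟩ := optPeb_mem G k
  obtain ⟨C', hC', hs'⟩ := optPeb_mem G l
  have : Solvable G (k + l) (C + C') := by
    intro r
    obtain ⟨D, h1, h2⟩ := hC r
    obtain ⟨D', h1', h2'⟩ := hC' r
    rw [step_eq_move] at h1 h1'
    refine ⟨D + D', ?_, Nat.add_le_add h2 h2'⟩
    rw [step_eq_move]
    exact rtg_add h1 h1'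
  refine (optPeb_le this).trans ?_
  rw [← hs, ← hs', ← Finset.sum_add_distrib]
  rfl

lemma subadd (G : SimpleGraph V) : Subadditive (fun k : ℕ => (optPeb G k : ℝ)) := by
  intro m n
  show (optPeb G (m + n) : ℝ) ≤ (optPeb G m : ℝ) + (optPeb G n : ℝ)
  exact_mod_cast optPeb_add G m n

lemma bdd (G : SimpleGraph V) :
    BddBelow (Set.range fun k : ℕ => (optPeb G k : ℝ) / k) := by
  refine ⟨0, ?_⟩
  rintro _ ⟨k, rfl⟩
  positivity

lemma tendsto_optPeb (G : SimpleGraph V) :
    Tendsto (fun k : ℕ => (optPeb G k : ℝ) / k) atTop (𝓝 (subadd G).lim) :=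
  (subadd G).tendsto_lim (bdd G)

lemma lim_le_div {k : ℕ} (hk : k ≠ 0) : (subadd G).lim ≤ (optPeb G k : ℝ) / k :=
  (subadd G).lim_le_div (bdd G) hk

lemma one_le_lim [Nonempty V] (G : SimpleGraph V) : 1 ≤ (subadd G).lim := by
  refine ge_of_tendsto (tendsto_optPeb G) ?_
  filter_upwards [eventually_gt_atTop 0] with k hk
  rw [le_div_iff₀ (by exact_mod_cast hk), one_mul]
  exact_mod_cast le_optPeb G k

end

/-- the fractional configuration: `a` pebbles on every source. -/
def stack {m n K q : ℕ} (a : ℕ) : Vt m n K q → ℕ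
  | Sum.inl _ => a
  | Sum.inr _ => 0

lemma stack_sum {m n K q : ℕ} (a : ℕ) : ∑ v : Vt m n K q, stack a v = m * a := by
  rw [Fintype.sum_sum_type]
  simp [stack]

lemma solvable (e : ℕ) (K : ℕ) [DecidableEq (Vt (2 ^ (2 * e + 2)) (2 ^ (2 * e + 1)) K (2 * e + 1))]
    (r : Vt (2 ^ (2 * e + 2)) (2 ^ (2 * e + 1)) K (2 * e + 1)) :
    ∃ D' : Vt (2 ^ (2 * e + 2)) (2 ^ (2 * e + 1)) K (2 * e + 1) → ℕ,
      Relation.ReflTransGen (Move (Gr (2 ^ (2 * e + 2)) (2 ^ (2 * e + 1)) K (2 * e + 1)))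
        (stack (2 ^ (5 * e + 6))) D' ∧ 2 ^ (4 * e + 4) ≤ D' r := by
  have hinj : Function.Injective
      (fun i : Fin (2 ^ (2 * e + 2)) =>
        (src i : Vt (2 ^ (2 * e + 2)) (2 ^ (2 * e + 1)) K (2 * e + 1))) := by
    intro a b hab
    simpa using hab
  rcases r with i | y | ⟨y, k, s⟩
  · refine ⟨_, Relation.ReflTransGen.refl, ?_⟩
    simp only [stack]
    exact Nat.pow_le_pow_right (by norm_num) (by omega)
  · obtain ⟨D', h1, h2⟩ := cover
      (fun i : Fin (2 ^ (2 * e + 2)) =>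
        (src i : Vt (2 ^ (2 * e + 2)) (2 ^ (2 * e + 1)) K (2 * e + 1))) hinj
      (stack (2 ^ (5 * e + 6))) (2 ^ (5 * e + 6)) (fun i => rfl)
      (Finset.univ.map y.1) (tgt y) (2 * e + 2) (2 ^ (3 * e + 4))
      (by rw [← pow_add]; congr 1; ring)
      (by
        intro i hi
        obtain ⟨k, _, rfl⟩ := Finset.mem_map.1 hi
        obtain ⟨w, hw⟩ := path_walk (q := 2 * e + 1) y k 0 (2 * e + 2) (by omega)
        exact ⟨w.copy (P_zero y k) (by rw [zero_add]; exact P_end y k), by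
          rw [SimpleGraph.Walk.length_copy, hw]⟩)
    refine ⟨D', h1, le_trans ?_ h2⟩
    rw [Finset.card_map, Finset.card_univ, Fintype.card_fin, ← pow_add]
    exact Nat.pow_le_pow_right (by norm_num) (by omega)
  · by_cases hp : s.val + 1 ≤ e + 2
    · obtain ⟨D', h1, h2⟩ := cover
        (fun i : Fin (2 ^ (2 * e + 2)) =>
          (src i : Vt (2 ^ (2 * e + 2)) (2 ^ (2 * e + 1)) K (2 * e + 1))) hinj
        (stack (2 ^ (5 * e + 6))) (2 ^ (5 * e + 6)) (fun i => rfl)
        {y.1 k} (mid y k s) (s.val + 1) (2 ^ (5 * e + 6 - (s.val + 1)))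
        (by rw [← pow_add]; congr 1; omega)
        (by
          intro i hi
          rw [Finset.mem_singleton] at hi
          subst hi
          obtain ⟨w, hw⟩ := path_walk (q := 2 * e + 1) y k 0 (s.val + 1) (by omega)
          exact ⟨w.copy (P_zero y k) (by rw [zero_add]; exact P_mid y k s.val s.2), by
            rw [SimpleGraph.Walk.length_copy, hw]⟩)
      refine ⟨D', h1, le_trans ?_ h2⟩
      rw [Finset.card_singleton, one_mul]
      exact Nat.pow_le_pow_right (by norm_num) (by omega)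
    · have hs := s.2
      obtain ⟨D', h1, h2⟩ := cover
        (fun i : Fin (2 ^ (2 * e + 2)) =>
          (src i : Vt (2 ^ (2 * e + 2)) (2 ^ (2 * e + 1)) K (2 * e + 1))) hinj
        (stack (2 ^ (5 * e + 6))) (2 ^ (5 * e + 6)) (fun i => rfl)
        (Finset.univ.map y.1) (mid y k s) (4 * e + 4 - (s.val + 1)) (2 ^ (e + 2 + (s.val + 1)))
        (by rw [← pow_add]; congr 1; omega)
        (by
          intro i hi
          obtain ⟨k', _, rfl⟩ := Finset.mem_map.1 hi
          obtain ⟨w, hw⟩ := path_walk_through (q := 2 * e + 1) y k k' (s.val + 1)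
            (2 * e + 1 + 1 - (s.val + 1)) (by omega)
          exact ⟨w.copy rfl (P_mid y k s.val s.2), by
            rw [SimpleGraph.Walk.length_copy, hw]; omega⟩)
      refine ⟨D', h1, le_trans ?_ h2⟩
      rw [Finset.card_map, Finset.card_univ, Fintype.card_fin, ← pow_add]
      exact Nat.pow_le_pow_right (by norm_num) (by omega)

/-- A graph with `optPeb G (2 ^ (4 e + 4)) ≤ 2 ^ (7 e + 8)` and `optPeb G 1 > 2 ^ (4 e + 2)`. -/
lemma family (e : ℕ) : ∃ (V : Type) (_ : Fintype V) (G : SimpleGraph V), G.Connected ∧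
    optPeb G (2 ^ (4 * e + 4)) ≤ 2 ^ (7 * e + 8) ∧ 2 ^ (4 * e + 2) < optPeb G 1 := by
  classical
  let m := 2 ^ (2 * e + 2)
  let n := 2 ^ (2 * e + 1)
  let q := 2 * e + 1
  let K := n * 2 ^ q + 1
  have hmn : m = 2 * n := by
    simp only [m, n]
    rw [pow_succ]; ring
  have hnpos : 2 ≤ n := by
    simp only [n]
    calc 2 = 2 ^ 1 := rfl
      _ ≤ 2 ^ (2 * e + 1) := Nat.pow_le_pow_right (by norm_num) (by omega)
  have hq : m ≤ 2 ^ (q + 1) := Nat.pow_le_pow_right (by norm_num) (by simp only [q]; omega)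
  refine ⟨Vt m n K q, inferInstance, Gr m n K q, connected hnpos (by omega) (Nat.succ_pos _), ?_, ?_⟩
  · have h : Solvable (Gr m n K q) (2 ^ (4 * e + 4)) (stack (2 ^ (5 * e + 6))) := by
      intro r
      obtain ⟨D', h1, h2⟩ := solvable e K r
      refine ⟨D', ?_, h2⟩
      rw [step_eq_move]
      exact h1
    refine (optPeb_le h).trans ?_
    rw [stack_sum]
    simp only [m]
    rw [← pow_add]
    exact Nat.pow_le_pow_right (by norm_num) (by omega)
  · obtain ⟨E, hE1, hE2⟩ := optPeb_mem (Gr m n K q) 1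
    rw [← hE2]
    have h1 : n * 2 ^ q = 2 ^ (4 * e + 2) := by
      simp only [n, q]
      rw [← pow_add]; congr 1; ring
    rw [← h1]
    by_contra hcon
    push Not at hcon
    obtain ⟨y0, hy0⟩ := lower (m := m) (n := n) (K := K) (q := q) hmn hq E hcon
      (Nat.lt_succ_self _)
    obtain ⟨E', h1, h2⟩ := hE1 (tgt y0)
    rw [step_eq_move] at h1
    have := hy0 E' h1
    omega

theorem ratio (c : ℝ) : ∃ (V : Type) (_ : Fintype V) (G : SimpleGraph V) (x : ℝ),
    G.Connected ∧ Tendsto (fun k : ℕ => (optPeb G k : ℝ) / k) atTop (𝓝 x) ∧ 1 ≤ x ∧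
    c * x < optPeb G 1 ∧ x ^ 4 < 1024 * (optPeb G 1 : ℝ) ^ 3 := by
  obtain ⟨j, hj⟩ : ∃ j : ℕ, c < 2 ^ j := pow_unbounded_of_one_lt c (by norm_num)
  obtain ⟨V, hV, G, hG, h1, h2⟩ := family (j + 2)
  have : Nonempty V := hG.nonempty
  have h2' : (2 : ℝ) ^ (4 * (j + 2) + 2) < optPeb G 1 := by exact_mod_cast h2
  have hx : (subadd G).lim ≤ 2 ^ (3 * (j + 2) + 4) := by
    refine (lim_le_div (G := G) (k := 2 ^ (4 * (j + 2) + 4)) (by positivity)).trans ?_
    rw [div_le_iff₀ (by positivity)]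
    have h1' : (optPeb G (2 ^ (4 * (j + 2) + 4)) : ℝ) ≤ 2 ^ (7 * (j + 2) + 8) := by
      exact_mod_cast h1
    refine h1'.trans (le_of_eq ?_)
    push_cast
    rw [← pow_add]
    congr 1
    ring
  have h1x := one_le_lim G
  refine ⟨V, hV, G, (subadd G).lim, hG, tendsto_optPeb G, h1x, ?_, ?_⟩
  · calc c * (subadd G).lim ≤ 2 ^ j * (subadd G).lim :=
          mul_le_mul_of_nonneg_right hj.le (by linarith)
      _ ≤ 2 ^ j * 2 ^ (3 * (j + 2) + 4) := mul_le_mul_of_nonneg_left hx (by positivity)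
      _ = 2 ^ (4 * (j + 2) + 2) := by rw [← pow_add]; congr 1; ring
      _ < optPeb G 1 := h2'
  · calc (subadd G).lim ^ 4 ≤ (2 ^ (3 * (j + 2) + 4)) ^ 4 :=
          pow_le_pow_left₀ (by linarith) hx 4
      _ = 1024 * (2 ^ (4 * (j + 2) + 2)) ^ 3 := by
          have : (1024 : ℝ) = 2 ^ 10 := by norm_num
          rw [this, ← pow_mul, ← pow_mul, ← pow_add]
          congr 1
          ring
      _ < 1024 * (optPeb G 1 : ℝ) ^ 3 := by
          have := pow_lt_pow_left₀ h2' (by positivity) (n := 3) (by norm_num)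
          linarith

end Pool.Agent.Lib.P74a576
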