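import Mathlib

set_option autoImplicit false

namespace Pool.Agent.Lib.P74a576

/-- one pebbling step -/
def Move {V : Type} [DecidableEq V] (G : SimpleGraph V) (A B : V → ℕ) : Prop :=
  ∃ u v : V, G.Adj u v ∧ 2 ≤ A u ∧
    B = Function.update (Function.update A u (A u - 2)) v (A v + 1)

section general

variable {V : Type} [DecidableEq V] {G : SimpleGraph V}

lemma Move.add {A B : V → ℕ} (h : Move G A B) (C : V → ℕ) : Move G (A + C) (B + C) := by
  obtain ⟨u, v, huv, h2, rfl⟩ := h
  refine ⟨u, v, huv, by simp only [Pi.add_apply]; omega, ?_⟩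
  have hne : u ≠ v := huv.ne
  funext w
  by_cases hv : w = v
  · subst hv
    simp [Function.update_self]
    omega
  · by_cases hu : w = u
    · subst hu
      simp [Function.update_self, Function.update_of_ne, hne]
      omega
    · simp [Function.update_of_ne, hv, hu]

lemma rtg_add_right {A B : V → ℕ} (h : Relation.ReflTransGen (Move G) A B) (C : V → ℕ) :
    Relation.ReflTransGen (Move G) (A + C) (B + C) :=
  Relation.ReflTransGen.lift (p := Move G) (fun X => X + C) (fun _ _ hm => Move.add hm C) _ _ h

lemma rtg_add {A B A' B' : V → ℕ} (h : Relation.ReflTransGen (Move G) A B)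
    (h' : Relation.ReflTransGen (Move G) A' B') :
    Relation.ReflTransGen (Move G) (A + A') (B + B') := by
  have h1 := rtg_add_right h A'
  have h2 := rtg_add_right h' B
  rw [add_comm A' B, add_comm B' B] at h2
  exact h1.trans h2

lemma rtg_sum {ι : Type} (S : Finset ι) (A B : ι → V → ℕ)
    (h : ∀ i ∈ S, Relation.ReflTransGen (Move G) (A i) (B i)) :
    Relation.ReflTransGen (Move G) (∑ i ∈ S, A i) (∑ i ∈ S, B i) := by
  classical
  induction S using Finset.induction_on with
  | empty => simpa using Relation.ReflTransGen.refl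
  | insert i S hi ih =>
    rw [Finset.sum_insert hi, Finset.sum_insert hi]
    exact rtg_add (h i (Finset.mem_insert_self i S))
      (ih (fun k hk => h k (Finset.mem_insert_of_mem hk)))

lemma single_add' (u : V) (a b : ℕ) :
    (Pi.single u (a + b) : V → ℕ) = Pi.single u a + Pi.single u b := by
  funext w
  by_cases h : w = u
  · subst h; simp
  · simp [Pi.single_eq_of_ne h]

lemma move_single {u v : V} (h : G.Adj u v) :
    Move G (Pi.single u 2 : V → ℕ) (Pi.single v 1) := by
  refine ⟨u, v, h, by simp, ?_⟩
  have hne : u ≠ v := h.ne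
  funext w
  by_cases hv : w = v
  · subst hv
    simp [Function.update_self, Pi.single_eq_of_ne hne.symm]
  · by_cases hu : w = u
    · subst hu
      simp [Function.update_self, Function.update_of_ne, hne, Pi.single_eq_of_ne hv]
    · simp [Function.update_of_ne, hv, hu, Pi.single_eq_of_ne hu, Pi.single_eq_of_ne hv]

lemma rtg_edge {u v : V} (h : G.Adj u v) (M : ℕ) :
    Relation.ReflTransGen (Move G) (Pi.single u (2 * M) : V → ℕ) (Pi.single v M) := by
  induction M with
  | zero => simpa using Relation.ReflTransGen.refl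
  | succ M ih =>
    have e : 2 * (M + 1) = 2 + 2 * M := by ring
    rw [e, single_add', add_comm M 1, single_add']
    exact rtg_add (Relation.ReflTransGen.single (move_single h)) ih

lemma rtg_walk {u r : V} (w : G.Walk u r) (N : ℕ) :
    Relation.ReflTransGen (Move G) (Pi.single u (N * 2 ^ w.length) : V → ℕ) (Pi.single r N) := by
  induction w with
  | nil => simpa using Relation.ReflTransGen.refl
  | cons h p ih =>
    have e : N * 2 ^ (SimpleGraph.Walk.cons h p).length = 2 * (N * 2 ^ p.length) := by
      rw [SimpleGraph.Walk.length_cons, pow_succ]; ring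
    rw [e]
    exact (rtg_edge h _).trans ih

/-- Several stacks of size `a` at distinct sources, each at walk distance `L` of `r`. -/
lemma cover {ι : Type} [Fintype ι] (f : ι → V) (hf : Function.Injective f) (D : V → ℕ) (a : ℕ)
    (hD : ∀ i, D (f i) = a) (S : Finset ι) (r : V) (L N : ℕ) (ha : a = N * 2 ^ L)
    (hw : ∀ i ∈ S, ∃ w : G.Walk (f i) r, w.length = L) :
    ∃ D' : V → ℕ, Relation.ReflTransGen (Move G) D D' ∧ S.card * N ≤ D' r := by
  classical
  let rest : V → ℕ := fun v => if ∃ i ∈ S, f i = v then 0 else D v
  have hdec : D = (∑ i ∈ S, (Pi.single (f i) a : V → ℕ)) + rest := by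
    funext v
    rw [Pi.add_apply, Finset.sum_apply]
    by_cases h : ∃ i ∈ S, f i = v
    · obtain ⟨i, hi, rfl⟩ := h
      have h1 : rest (f i) = 0 := by
        simp only [rest]
        rw [if_pos ⟨i, hi, rfl⟩]
      rw [h1, add_zero, hD, Finset.sum_eq_single i]
      · simp
      · intro b _ hb
        rw [Pi.single_eq_of_ne (fun h => hb (hf h.symm))]
      · intro h; exact absurd hi h
    · have h1 : rest v = D v := by
        simp only [rest]
        rw [if_neg h]
      rw [h1, Finset.sum_eq_zero]
      · simp
      · intro i hi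
        rw [Pi.single_eq_of_ne (fun hh => h ⟨i, hi, hh.symm⟩)]
  have key : Relation.ReflTransGen (Move G) (∑ i ∈ S, (Pi.single (f i) a : V → ℕ))
      (∑ _i ∈ S, (Pi.single r N : V → ℕ)) := by
    apply rtg_sum
    intro i hi
    obtain ⟨w, hwl⟩ := hw i hi
    have := rtg_walk w N
    rw [hwl, ← ha] at this
    exact this
  refine ⟨(∑ _i ∈ S, (Pi.single r N : V → ℕ)) + rest, ?_, ?_⟩
  · conv_lhs => rw [hdec]
    exact rtg_add_right key rest
  · rw [Pi.add_apply, Finset.sum_apply]
    simp

/-- Effect of a step on a weighted sum. -/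
lemma move_sum [Fintype V] {A : V → ℕ} (u v : V) (hne : u ≠ v) (h2 : 2 ≤ A u) (φ : V → ℕ) :
    ∑ w, (Function.update (Function.update A u (A u - 2)) v (A v + 1)) w * φ w + 2 * φ u
      = ∑ w, A w * φ w + φ v := by
  have e1 : 2 * φ u = ∑ w, (if w = u then 2 else 0) * φ w := by
    simp [ite_mul, Finset.sum_ite_eq']
  have e2 : φ v = ∑ w, (if w = v then 1 else 0) * φ w := by
    simp [ite_mul, Finset.sum_ite_eq']
  rw [e1]
  conv_rhs => rw [e2]
  rw [← Finset.sum_add_distrib, ← Finset.sum_add_distrib]
  apply Finset.sum_congr rfl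
  intro w _
  rw [← add_mul, ← add_mul]
  congr 1
  by_cases hv : w = v
  · subst hv
    simp [Function.update_self, hne.symm]
  · by_cases hu : w = u
    · subst hu
      simp [Function.update_self, Function.update_of_ne, hne]
      omega
    · simp [Function.update_of_ne, hv, hu]

end general

end Pool.Agent.Lib.P74a576
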