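import Pool.Agent.Lib.P74a576.Graph

set_option autoImplicit false

namespace Pool.Agent.Lib.P74a576

/-- the fractional configuration: `a` pebbles on every source. -/
def stack {m n K q : ℕ} (a : ℕ) : Vt m n K q → ℕ
  | Sum.inl _ => a
  | Sum.inr _ => 0

lemma stack_sum {m n K q : ℕ} (a : ℕ) : ∑ v : Vt m n K q, stack a v = m * a := by
  rw [Fintype.sum_sum_type]
  simp [stack]

lemma solvable (e : ℕ) (K : ℕ) [DecidableEq (Vt (2 ^ (2 * e + 2)) (2 ^ (2 * e + 1)) K (2 * e + 1))]
    (r : Vt (2 ^ (2 * e + 2)) (2 ^ (2 * e + 1)) K (2 * e + 1)) :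
    ∃ D' : Vt (2 ^ (2 * e + 2)) (2 ^ (2 * e + 1)) K (2 * e + 1) → ℕ,
      Relation.ReflTransGen (Move (Gr (2 ^ (2 * e + 2)) (2 ^ (2 * e + 1)) K (2 * e + 1)))
        (stack (2 ^ (5 * e + 6))) D' ∧ 2 ^ (4 * e + 4) ≤ D' r := by
  have hinj : Function.Injective
      (fun i : Fin (2 ^ (2 * e + 2)) =>
        (src i : Vt (2 ^ (2 * e + 2)) (2 ^ (2 * e + 1)) K (2 * e + 1))) := by
    intro a b hab
    simpa using hab
  rcases r with i | y | ⟨y, k, s⟩
  · refine ⟨_, Relation.ReflTransGen.refl, ?_⟩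
    simp only [stack]
    exact Nat.pow_le_pow_right (by norm_num) (by omega)
  · obtain ⟨D', h1, h2⟩ := cover
      (fun i : Fin (2 ^ (2 * e + 2)) =>
        (src i : Vt (2 ^ (2 * e + 2)) (2 ^ (2 * e + 1)) K (2 * e + 1))) hinj
      (stack (2 ^ (5 * e + 6))) (2 ^ (5 * e + 6)) (fun i => rfl)
      (Finset.univ.map y.1) (tgt y) (2 * e + 2) (2 ^ (3 * e + 4))
      (by rw [← pow_add]; congr 1; ring)
      (by
        intro i hi
        obtain ⟨k, _, rfl⟩ := Finset.mem_map.1 hi
        obtain ⟨w, hw⟩ := path_walk (q := 2 * e + 1) y k 0 (2 * e + 2) (by omega)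
        exact ⟨w.copy (P_zero y k) (by rw [zero_add]; exact P_end y k), by
          rw [SimpleGraph.Walk.length_copy, hw]⟩)
    refine ⟨D', h1, le_trans ?_ h2⟩
    rw [Finset.card_map, Finset.card_univ, Fintype.card_fin, ← pow_add]
    exact Nat.pow_le_pow_right (by norm_num) (by omega)
  · by_cases hp : s.val + 1 ≤ e + 2
    · obtain ⟨D', h1, h2⟩ := cover
        (fun i : Fin (2 ^ (2 * e + 2)) =>
          (src i : Vt (2 ^ (2 * e + 2)) (2 ^ (2 * e + 1)) K (2 * e + 1))) hinj
        (stack (2 ^ (5 * e + 6))) (2 ^ (5 * e + 6)) (fun i => rfl)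
        {y.1 k} (mid y k s) (s.val + 1) (2 ^ (5 * e + 6 - (s.val + 1)))
        (by rw [← pow_add]; congr 1; omega)
        (by
          intro i hi
          rw [Finset.mem_singleton] at hi
          subst hi
          obtain ⟨w, hw⟩ := path_walk (q := 2 * e + 1) y k 0 (s.val + 1) (by omega)
          exact ⟨w.copy (P_zero y k) (by rw [zero_add]; exact P_mid y k s.val s.2), by
            rw [SimpleGraph.Walk.length_copy, hw]⟩)
      refine ⟨D', h1, le_trans ?_ h2⟩
      rw [Finset.card_singleton, one_mul]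
      exact Nat.pow_le_pow_right (by norm_num) (by omega)
    · have hs := s.2
      obtain ⟨D', h1, h2⟩ := cover
        (fun i : Fin (2 ^ (2 * e + 2)) =>
          (src i : Vt (2 ^ (2 * e + 2)) (2 ^ (2 * e + 1)) K (2 * e + 1))) hinj
        (stack (2 ^ (5 * e + 6))) (2 ^ (5 * e + 6)) (fun i => rfl)
        (Finset.univ.map y.1) (mid y k s) (4 * e + 4 - (s.val + 1)) (2 ^ (e + 2 + (s.val + 1)))
        (by rw [← pow_add]; congr 1; omega)
        (by
          intro i hi
          obtain ⟨k', _, rfl⟩ := Finset.mem_map.1 hi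
          obtain ⟨w, hw⟩ := path_walk_through (q := 2 * e + 1) y k k' (s.val + 1)
            (2 * e + 1 + 1 - (s.val + 1)) (by omega)
          exact ⟨w.copy rfl (P_mid y k s.val s.2), by
            rw [SimpleGraph.Walk.length_copy, hw]; omega⟩)
      refine ⟨D', h1, le_trans ?_ h2⟩
      rw [Finset.card_map, Finset.card_univ, Fintype.card_fin, ← pow_add]
      exact Nat.pow_le_pow_right (by norm_num) (by omega)


end Pool.Agent.Lib.P74a576
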